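import Pool.Agent.Helper20.GT.Stm2
import Pool.Agent.Helper1.GT.CORE

/-!
# Patterns made of geometric progressions: the reversal of digits (package CORE2 of helper20)
-/

set_option autoImplicit false

open Finset Filter Topology
open scoped Classical

namespace Pool.Agent.Helper1.GT2

open Pool.Agent.Helper20.GT2
open Pool.Agent.Helper1.GT (digits vals_free vals_pairs)

theorem root_le {a L : ℝ} (ha : 0 ≤ a) (hL : 0 ≤ L) (p q : ℕ) (hp : p ≠ 0) (h : a ^ p ≤ L ^ q) :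
    a ≤ L ^ ((q : ℝ) / p) := by
  have h1 : a = (a ^ p) ^ ((p : ℝ)⁻¹) := (Real.pow_rpow_inv_natCast ha hp).symm
  have h2 : L ^ ((q : ℝ) / p) = (L ^ q) ^ ((p : ℝ)⁻¹) := by
    rw [← Real.rpow_natCast, ← Real.rpow_mul hL]
    rfl
  rw [h1, h2]
  exact Real.rpow_le_rpow (pow_nonneg ha p) h (by positivity)

/-- the numerics -/
theorem numerics {L : ℝ} (hL : 5 / 2 < L) {n : ℕ} (hn : n = ⌈L⌉₊) :
    (2 * n - 1 : ℝ) ≤ L ^ (9 / 5 : ℝ) ∧ (n : ℝ) ≤ L ^ (13 / 10 : ℝ) := by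
  have hL0 : 0 < L := by linarith
  have hnL : (n : ℝ) < L + 1 := by rw [hn]; exact Nat.ceil_lt_add_one hL0.le
  have hLn : L ≤ n := by rw [hn]; exact Nat.le_ceil L
  have hpow : ∀ (c : ℝ) (k : ℕ), 0 ≤ c → c ≤ L → c ^ k ≤ L ^ k :=
    fun c k hc h => pow_le_pow_left₀ hc h k
  have key : (2 * n - 1 : ℝ) ^ 5 ≤ L ^ 9 ∧ (n : ℝ) ^ 10 ≤ L ^ 13 := by
    rcases le_or_gt L 3 with h3 | h3
    · have hn3 : (n : ℝ) ≤ 3 := by
        have : n ≤ 3 := by rw [hn]; exact Nat.ceil_le.2 (by exact_mod_cast h3)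
        exact_mod_cast this
      constructor
      · have h1 : (2 * n - 1 : ℝ) ^ 5 ≤ 5 ^ 5 :=
          pow_le_pow_left₀ (by linarith) (by linarith) 5
        have h2 := hpow (5 / 2) 9 (by norm_num) hL.le
        have h4 : (5:ℝ) ^ 5 ≤ (5 / 2) ^ 9 := by norm_num
        exact h1.trans (h4.trans h2)
      · have h1 : (n : ℝ) ^ 10 ≤ 3 ^ 10 := pow_le_pow_left₀ (by linarith) hn3 10
        have h2 := hpow (5 / 2) 13 (by norm_num) hL.le
        have h4 : (3:ℝ) ^ 10 ≤ (5 / 2) ^ 13 := by norm_num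
        exact h1.trans (h4.trans h2)
    · rcases le_or_gt L 4 with h4 | h4
      · have hn4 : (n : ℝ) ≤ 4 := by
          have : n ≤ 4 := by rw [hn]; exact Nat.ceil_le.2 (by exact_mod_cast h4)
          exact_mod_cast this
        constructor
        · have h1 : (2 * n - 1 : ℝ) ^ 5 ≤ 7 ^ 5 :=
            pow_le_pow_left₀ (by linarith) (by linarith) 5
          have h2 := hpow 3 9 (by norm_num) h3.le
          have h5 : (7:ℝ) ^ 5 ≤ 3 ^ 9 := by norm_num
          exact h1.trans (h5.trans h2)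
        · have h1 : (n : ℝ) ^ 10 ≤ 4 ^ 10 := pow_le_pow_left₀ (by linarith) hn4 10
          have h2 := hpow 3 13 (by norm_num) h3.le
          have h5 : (4:ℝ) ^ 10 ≤ 3 ^ 13 := by norm_num
          exact h1.trans (h5.trans h2)
      · constructor
        · have h1 : (2 * n - 1 : ℝ) ^ 5 ≤ (3 * L) ^ 5 :=
            pow_le_pow_left₀ (by linarith) (by linarith) 5
          have h2 := hpow 4 4 (by norm_num) h4.le
          have h5 : (3 * L) ^ 5 = 243 * L ^ 5 := by ring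
          have h6 : L ^ 9 = L ^ 4 * L ^ 5 := by ring
          rw [h5] at h1
          rw [h6]
          refine h1.trans (mul_le_mul_of_nonneg_right ?_ (by positivity))
          have : (243:ℝ) ≤ 4 ^ 4 := by norm_num
          exact this.trans h2
        · have h1 : (n : ℝ) ^ 10 ≤ (5 / 4 * L) ^ 10 :=
            pow_le_pow_left₀ (by linarith) (by linarith) 10
          have h2 := hpow 4 3 (by norm_num) h4.le
          have h5 : (5 / 4 * L) ^ 10 = (5 / 4) ^ 10 * L ^ 10 := by ring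
          have h6 : L ^ 13 = L ^ 3 * L ^ 10 := by ring
          rw [h5] at h1
          rw [h6]
          refine h1.trans (mul_le_mul_of_nonneg_right ?_ (by positivity))
          have : ((5:ℝ) / 4) ^ 10 ≤ 4 ^ 3 := by norm_num
          exact this.trans h2
  have h1 := root_le (by linarith) hL0.le 5 9 (by norm_num) key.1
  have h2 := root_le (by linarith) hL0.le 10 13 (by norm_num) key.2
  constructor
  · have : ((9:ℕ):ℝ) / (5:ℕ) = 9 / 5 := by norm_num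
    rwa [this] at h1
  · have : ((13:ℕ):ℝ) / (10:ℕ) = 13 / 10 := by norm_num
    rwa [this] at h2

/-- **the reversal of digits** -/
theorem core2 : S_CORE := by
  intro L hL
  have hL0 : 0 < L := by linarith
  have hL1 : 1 < L := by linarith
  obtain ⟨n, hn⟩ : ∃ n : ℕ, n = ⌈L⌉₊ := ⟨_, rfl⟩
  have hLn : L ≤ n := by rw [hn]; exact Nat.le_ceil L
  have hnL : (n : ℝ) < L + 1 := by rw [hn]; exact Nat.ceil_lt_add_one hL0.le
  have hn1 : 1 ≤ n := by
    have : (0:ℝ) < n := by linarith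
    exact_mod_cast this
  obtain ⟨B, hB⟩ : ∃ B : ℕ, B = 2 * n - 1 := ⟨_, rfl⟩
  have hBr : (B : ℝ) = 2 * n - 1 := by
    rw [hB, Nat.cast_sub (by omega)]
    push_cast
    ring
  have hB1 : (1:ℝ) < B := by rw [hBr]; linarith
  obtain ⟨hnum1, hnum2⟩ := numerics hL hn
  rw [← hBr] at hnum1
  have hC1 : 1 ≤ (n : ℝ) * L + 3 * L ^ 2 := by
    have h1 : 0 ≤ (n : ℝ) * L := by positivity
    have h2 : 1 ≤ L ^ 2 := one_le_pow₀ hL1.le
    linarith
  refine ⟨n * L + 3 * L ^ 2, hC1, ?_⟩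
  intro M hM
  have hM1 : (1:ℝ) ≤ M := by exact_mod_cast hM
  have hM0 : (0:ℝ) < M := by linarith
  -- the length
  have hex : ∃ l : ℕ, (M : ℝ) ≤ L ^ l := by
    obtain ⟨l, hl⟩ := pow_unbounded_of_one_lt (M : ℝ) hL1
    exact ⟨l, hl.le⟩
  obtain ⟨l, hl⟩ : ∃ l : ℕ, l = Nat.find hex := ⟨_, rfl⟩
  have hMl : (M : ℝ) ≤ L ^ l := by rw [hl]; exact Nat.find_spec hex
  have hlM : L ^ l ≤ L * M := by
    rcases Nat.eq_zero_or_pos l with h | h
    · rw [h, pow_zero]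
      nlinarith
    · have h1 : ¬ (M : ℝ) ≤ L ^ (l - 1) := Nat.find_min hex (by omega)
      have h2 : L ^ l = L * L ^ (l - 1) := by
        rw [← pow_succ']
        congr 1
        omega
      rw [h2]
      push Not at h1
      nlinarith
  have hsumL : ∀ k : ℕ, ∑ i ∈ range k, L ^ i ≤ L ^ k := by
    intro k
    induction k with
    | zero => simp
    | succ k ih =>
      rw [sum_range_succ, pow_succ]
      have : 0 < L ^ k := by positivity
      nlinarith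
  -- the digits
  have hdig : ∀ d : ℕ, ∃ w : ℕ → ℕ, (∀ k, w k < n) ∧ (d < M → ∃ e : ℝ, 0 ≤ e ∧ e ≤ 1 ∧
      (d : ℝ) = ∑ k ∈ range l, (w k : ℝ) * L ^ k + e) := by
    intro d
    by_cases hd : d < M
    · have h1 : (d : ℝ) ≤ L ^ l := by
        have : (d : ℝ) < M := by exact_mod_cast hd
        linarith
      obtain ⟨w, hw, e, he⟩ := digits hL1 hLn l d (Nat.cast_nonneg d) h1
      exact ⟨w, hw, fun _ => ⟨e, he⟩⟩
    · exact ⟨fun _ => 0, fun _ => hn1, fun h => absurd h hd⟩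
  choose w hw he using hdig
  refine ⟨fun d => ∑ k ∈ range l, (w d k : ℝ) * L ^ (l - 1 - k), fun d _ => ?_, ?_⟩
  · have h1 : 0 ≤ ∑ k ∈ range l, (w d k : ℝ) * L ^ (l - 1 - k) :=
      sum_nonneg fun k _ => by positivity
    show |∑ k ∈ range l, (w d k : ℝ) * L ^ (l - 1 - k)| ≤ _
    rw [abs_of_nonneg h1]
    have h2 : ∑ k ∈ range l, (w d k : ℝ) * L ^ (l - 1 - k) ≤
        ∑ k ∈ range l, (n : ℝ) * L ^ (l - 1 - k) := by
      refine sum_le_sum fun k _ => mul_le_mul_of_nonneg_right ?_ (by positivity)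
      exact_mod_cast (hw d k).le
    have h3 : ∑ k ∈ range l, (n : ℝ) * L ^ (l - 1 - k) = n * ∑ k ∈ range l, L ^ k := by
      rw [← mul_sum, sum_range_reflect (fun k => L ^ k) l]
    rw [h3] at h2
    have h4 : (n : ℝ) * ∑ k ∈ range l, L ^ k ≤ n * (L * M) :=
      mul_le_mul_of_nonneg_left ((hsumL l).trans hlM) (by positivity)
    have h5 : 0 ≤ 3 * L ^ 2 * M := by positivity
    nlinarith
  -- the count
  have hcount : ∀ (j : ℕ) (σ : ℝ), (σ = 1 ∨ σ = -1) → L ^ j ≤ (M : ℝ) ^ (1 / 14 : ℝ) →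
      ((cells M (fun d => ∑ k ∈ range l, (w d k : ℝ) * L ^ (l - 1 - k)) (σ * (1 / L ^ j))).card : ℝ)
        ≤ (n * L + 3 * L ^ 2) * (M : ℝ) ^ (13 / 14 : ℝ) := by
    intro j σ hσ hj
    have hLj : 0 < L ^ j := by positivity
    have hLj1 : 1 ≤ L ^ j := one_le_pow₀ hL1.le
    have hjl : j ≤ l := by
      have h1 : (M : ℝ) ^ (1 / 14 : ℝ) ≤ (M : ℝ) ^ (1 : ℝ) :=
        Real.rpow_le_rpow_of_exponent_le hM1 (by linarith)
      rw [Real.rpow_one] at h1
      exact (pow_le_pow_iff_right₀ hL1).1 (hj.trans (h1.trans hMl))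
    obtain ⟨m, rfl⟩ := Nat.exists_eq_add_of_le hjl
    obtain ⟨V1, hV1, hV1'⟩ := vals_free n
      (fun k => L ^ (j + m - 1 - k) + σ * (1 / L ^ j) * L ^ k) j
    obtain ⟨V2, hV2, hV2'⟩ := vals_pairs L hn1 hσ m
    rw [← hB] at hV2
    have hsub : cells M (fun d => ∑ k ∈ range (j + m), (w d k : ℝ) * L ^ (j + m - 1 - k))
        (σ * (1 / L ^ j)) ⊆
        ((V1 ×ˢ V2) ×ˢ ({-1, 0, 1} : Finset ℤ)).image fun p => ⌊p.1.1 + p.1.2⌋ + p.2 := by
      intro z hz
      rw [cells, mem_image] at hz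
      obtain ⟨d, hd, rfl⟩ := hz
      obtain ⟨e, he0, he1, hde⟩ := he d (mem_range.1 hd)
      have h1 := hV1' (w d) (hw d)
      have h2 := hV2' (fun i => w d (j + i)) (fun i => hw d _)
      obtain ⟨s1, hs1⟩ : ∃ s1 : ℝ, s1 = ∑ k ∈ range j,
        (w d k : ℝ) * (L ^ (j + m - 1 - k) + σ * (1 / L ^ j) * L ^ k) := ⟨_, rfl⟩
      obtain ⟨s2, hs2⟩ : ∃ s2 : ℝ, s2 = ∑ i ∈ range m,
        (w d (j + i) : ℝ) * (L ^ (m - 1 - i) + σ * L ^ i) := ⟨_, rfl⟩
      rw [← hs1] at h1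
      rw [← hs2] at h2
      have h3 : (∑ k ∈ range (j + m), (w d k : ℝ) * L ^ (j + m - 1 - k)) + σ * (1 / L ^ j) * d =
          (s1 + s2) + σ * (1 / L ^ j) * e := by
        rw [hde, mul_add, ← add_assoc, mul_sum, ← sum_add_distrib, hs1, hs2, sum_range_add]
        congr 2
        · exact sum_congr rfl fun k _ => by ring
        · refine sum_congr rfl fun i hi => ?_
          have h4 : j + m - 1 - (j + i) = m - 1 - i := by omega
          rw [h4, pow_add]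
          field_simp
      have h5 : |σ * (1 / L ^ j) * e| ≤ 1 := by
        have h6 : |σ| = 1 := by rcases hσ with rfl | rfl <;> norm_num
        rw [abs_mul, abs_mul, h6, one_mul, abs_of_pos (by positivity), abs_of_nonneg he0]
        have h7 : 1 / L ^ j ≤ 1 := (div_le_one hLj).2 hLj1
        exact mul_le_one₀ h7 he0 he1
      have h8 := abs_le.1 h5
      refine mem_image.2 ⟨((s1, s2), ⌊(s1 + s2) + σ * (1 / L ^ j) * e⌋ - ⌊s1 + s2⌋),
        mem_product.2 ⟨mem_product.2 ⟨h1, h2⟩, ?_⟩, ?_⟩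
      · have h9 : ⌊s1 + s2⌋ - 1 ≤ ⌊(s1 + s2) + σ * (1 / L ^ j) * e⌋ := by
          rw [Int.le_floor]
          push_cast
          have := Int.floor_le (s1 + s2)
          linarith [h8.1]
        have h10 : ⌊(s1 + s2) + σ * (1 / L ^ j) * e⌋ < ⌊s1 + s2⌋ + 2 := by
          rw [Int.floor_lt]
          push_cast
          have := Int.lt_floor_add_one (s1 + s2)
          linarith [h8.2]
        simp only [mem_insert, mem_singleton]
        omega
      · show ⌊s1 + s2⌋ + (⌊(s1 + s2) + σ * (1 / L ^ j) * e⌋ - ⌊s1 + s2⌋) =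
          ⌊(∑ k ∈ range (j + m), (w d k : ℝ) * L ^ (j + m - 1 - k)) + σ * (1 / L ^ j) * d⌋
        rw [h3]
        ring
    have hc1 : ((cells M (fun d => ∑ k ∈ range (j + m), (w d k : ℝ) * L ^ (j + m - 1 - k))
        (σ * (1 / L ^ j))).card : ℝ) ≤ (n : ℝ) ^ j * (B : ℝ) ^ ((m + 1) / 2) * 3 := by
      have h1 := (card_le_card hsub).trans card_image_le
      rw [card_product, card_product] at h1
      have h2 : ({-1, 0, 1} : Finset ℤ).card = 3 := by decide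
      rw [h2] at h1
      have h3 : V1.card * V2.card * 3 ≤ n ^ j * B ^ ((m + 1) / 2) * 3 :=
        Nat.mul_le_mul_right _ (Nat.mul_le_mul hV1 hV2)
      exact_mod_cast h1.trans h3
    refine hc1.trans ?_
    have h1 : (n : ℝ) ^ j ≤ L ^ (13 / 10 * (j : ℝ)) := by
      rw [Real.rpow_mul hL0.le, Real.rpow_natCast]
      exact pow_le_pow_left₀ (Nat.cast_nonneg n) hnum2 j
    have h2 : (B : ℝ) ^ ((m + 1) / 2) ≤ L ^ (9 / 10 * ((m : ℝ) + 1)) := by
      have h5 : (B : ℝ) ^ ((m + 1) / 2) ≤ (L ^ (9 / 5 : ℝ)) ^ ((m + 1) / 2) :=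
        pow_le_pow_left₀ (Nat.cast_nonneg B) hnum1 _
      have h6 : (L ^ (9 / 5 : ℝ)) ^ ((m + 1) / 2) = L ^ (9 / 5 * (((m + 1) / 2 : ℕ) : ℝ)) := by
        rw [Real.rpow_mul hL0.le, Real.rpow_natCast]
      rw [h6] at h5
      refine h5.trans (Real.rpow_le_rpow_of_exponent_le hL1.le ?_)
      have h7 : (m + 1) / 2 * 2 ≤ m + 1 := by omega
      have h8 : ((((m + 1) / 2 : ℕ)) : ℝ) * 2 ≤ (m : ℝ) + 1 := by exact_mod_cast h7
      linarith
    have h3 : (n : ℝ) ^ j * (B : ℝ) ^ ((m + 1) / 2) * 3 ≤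
        L ^ (13 / 10 * (j : ℝ)) * L ^ (9 / 10 * ((m : ℝ) + 1)) * 3 := by gcongr
    have h4 : L ^ (13 / 10 * (j : ℝ)) * L ^ (9 / 10 * ((m : ℝ) + 1)) =
        (L ^ j) ^ (2 / 5 : ℝ) * (L ^ (j + m)) ^ (9 / 10 : ℝ) * L ^ (9 / 10 : ℝ) := by
      rw [← Real.rpow_natCast L j, ← Real.rpow_natCast L (j + m), ← Real.rpow_mul hL0.le,
        ← Real.rpow_mul hL0.le, ← Real.rpow_add hL0, ← Real.rpow_add hL0, ← Real.rpow_add hL0]
      congr 1
      push_cast
      ring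
    have h5 : (L ^ j) ^ (2 / 5 : ℝ) ≤ (M : ℝ) ^ (2 / 70 : ℝ) := by
      have h6 : (L ^ j) ^ (2 / 5 : ℝ) ≤ ((M : ℝ) ^ (1 / 14 : ℝ)) ^ (2 / 5 : ℝ) :=
        Real.rpow_le_rpow hLj.le hj (by norm_num)
      rw [← Real.rpow_mul hM0.le] at h6
      have h7 : (1 / 14 : ℝ) * (2 / 5) = 2 / 70 := by norm_num
      rwa [h7] at h6
    have hL9 : L ^ (9 / 10 : ℝ) ≤ L := by
      have : L ^ (9 / 10 : ℝ) ≤ L ^ (1 : ℝ) :=
        Real.rpow_le_rpow_of_exponent_le hL1.le (by norm_num)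
      rwa [Real.rpow_one] at this
    have h6 : (L ^ (j + m)) ^ (9 / 10 : ℝ) ≤ L * (M : ℝ) ^ (9 / 10 : ℝ) := by
      have h7 : (L ^ (j + m)) ^ (9 / 10 : ℝ) ≤ (L * (M : ℝ)) ^ (9 / 10 : ℝ) :=
        Real.rpow_le_rpow (by positivity) hlM (by norm_num)
      rw [Real.mul_rpow hL0.le hM0.le] at h7
      exact h7.trans (mul_le_mul_of_nonneg_right hL9 (by positivity))
    have h8 : (L ^ j) ^ (2 / 5 : ℝ) * (L ^ (j + m)) ^ (9 / 10 : ℝ) * L ^ (9 / 10 : ℝ) ≤
        (M : ℝ) ^ (2 / 70 : ℝ) * (L * (M : ℝ) ^ (9 / 10 : ℝ)) * L := by gcongr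
    have h9 : (M : ℝ) ^ (2 / 70 : ℝ) * (L * (M : ℝ) ^ (9 / 10 : ℝ)) * L =
        L ^ 2 * (M : ℝ) ^ (13 / 14 : ℝ) := by
      have : (M : ℝ) ^ (13 / 14 : ℝ) = (M : ℝ) ^ (2 / 70 : ℝ) * (M : ℝ) ^ (9 / 10 : ℝ) := by
        rw [← Real.rpow_add hM0]
        congr 1
        norm_num
      rw [this]
      ring
    rw [h4] at h3
    have h10 : (n : ℝ) ^ j * (B : ℝ) ^ ((m + 1) / 2) * 3 ≤
        3 * L ^ 2 * (M : ℝ) ^ (13 / 14 : ℝ) := by
      rw [h9] at h8
      refine h3.trans ?_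
      linarith
    refine h10.trans (mul_le_mul_of_nonneg_right ?_ (by positivity))
    have : 0 ≤ (n : ℝ) * L := by positivity
    linarith
  intro j hj
  refine ⟨?_, ?_⟩
  · have := hcount j 1 (Or.inl rfl) hj
    rwa [one_mul] at this
  · have := hcount j (-1) (Or.inr rfl) hj
    rwa [neg_one_mul] at this

end Pool.Agent.Helper1.GT2
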